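import Mathlib
import Pool.Agent.H30.SXC.Defs
import Pool.Agent.H30.SXC.Main

/-!
# Pro-p groups of cohomological dimension two and subexponential growth (MP_9180b3_al)

For every prime `p` there is a pro-`p` group, topologically generated by three elements, of
cohomological dimension at most two, of infinite rank (hence not `p`-adic analytic), with
`lim a_n(G)^(1/n) = 1`. This answers Q1 of the problem (yes).
-/

namespace Pool.Agent.Results.MP_9180b3_al.SubexpCdTwo

open Pool.Agent.H30.SXC Filter Topology

/-- For every prime `p` there is a 3-generated pro-`p` group `G` with `H^m(G, F_p) = 0` for all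
`m > 2`, of infinite rank, with `lim a_n^(1/n) = 1`, where `a_n = dim I^n/I^(n+1)` for the
augmentation ideal `I` of the completed group algebra `R = F_p[[G]]`. -/
theorem result (p : ℕ) [Fact p.Prime] :
    ∃ (G : Type) (_ : Group G) (_ : TopologicalSpace G),
      IsProP p G ∧ GenBy (⊤ : Subgroup G) 3 ∧ CdLE p G 2 ∧ ¬ FiniteRank G ∧
      ∃ (R : Type) (_ : Ring R) (_ : Algebra (ZMod p) R) (I : Set R) (a : ℕ → ℕ),
        IsAugIdeal p G R I ∧ (∀ n, 1 ≤ n → DimMod p (power p I n) (power p I (n + 1)) (a n)) ∧
        Tendsto (fun n : ℕ => (a n : ℝ) ^ (1 / (n : ℝ))) atTop (𝓝 1) :=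
  main p

end Pool.Agent.Results.MP_9180b3_al.SubexpCdTwo
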